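import Pool.Agent.Work.MP_7da6af_nt.AnomMain
import Pool.Agent.Work.MP_7da6af_nt.Gen.StarEx

/-! # Maximal torsion anomalous points on explicit surfaces in the torus of dimension five -/

set_option autoImplicit false

namespace Pool.Agent.Results.MP_7da6af_nt.ExplicitSurfaces

open Polynomial Pool.Agent.Work.MP_7da6af_nt

/-- The surface of the points `(x, z, y - a, y - b, g(y))` of the torus of dimension five over the
algebraic numbers with `u(y) x + v(y) z = w(y)`. -/
def surface (a b : ℚ) (g u v w : ℚ[X]) : Set Tor :=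
  {q | ∃ y : Om, q.co 2 = y - algebraMap ℚ Om a ∧ q.co 3 = y - algebraMap ℚ Om b ∧
    q.co 4 = aeval y g ∧ aeval y u * q.co 0 + aeval y v * q.co 1 = aeval y w}

theorem surface_eq (a b : ℚ) (g u v w : ℚ[X]) :
    surface a b g u v w = Anom.surf (algebraMap ℚ Om) (Gen.Fab a b g) u v w := by
  ext q
  have hev : ∀ (y : Om) (P : ℚ[X]), Gen.ev (algebraMap ℚ Om) y P = aeval y P := fun y P => rfl
  have hnum : ∀ l, (Gen.Fab a b g l).num = (![X - C a, X - C b, g] : Fin 3 → ℚ[X]) l := by
    intro l
    fin_cases l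
    · exact RatFunc.num_algebraMap _
    · exact RatFunc.num_algebraMap _
    · exact RatFunc.num_algebraMap _
  have hden : ∀ l, (Gen.Fab a b g l).denom = 1 := by
    intro l
    fin_cases l
    · exact RatFunc.denom_algebraMap _
    · exact RatFunc.denom_algebraMap _
    · exact RatFunc.denom_algebraMap _
  have hcu : ∀ (y : Om) (l : Fin 3), Gen.cu (Gen.Fab a b g) (algebraMap ℚ Om) y l =
      (![y - algebraMap ℚ Om a, y - algebraMap ℚ Om b, aeval y g] : Fin 3 → Om) l := by
    intro y l
    unfold Gen.cu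
    rw [hev, hev, hnum, hden]
    fin_cases l
    · simp
    · simp
    · simp
  constructor
  · rintro ⟨y, h2, h3, h4, h⟩
    refine ⟨y, fun l => ?_, fun l => ?_, h⟩
    · rw [hev, hev, hnum, hden]
      refine ⟨?_, by simp⟩
      have hne : ∀ i, q.co i ≠ 0 := Anom.co_ne q
      fin_cases l
      · have := hne 2
        rw [h2] at this
        simpa using this
      · have := hne 3
        rw [h3] at this
        simpa using this
      · have := hne 4
        rw [h4] at this
        simpa using this
    · rw [hcu]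
      fin_cases l
      · exact h2
      · exact h3
      · exact h4
  · rintro ⟨y, -, h2, h⟩
    refine ⟨y, ?_, ?_, ?_, h⟩
    · have := h2 0
      rw [hcu] at this
      exact this
    · have := h2 1
      rw [hcu] at this
      exact this
    · have := h2 2
      rw [hcu] at this
      exact this

/-- Let `a ≠ b` be rational, `g` a nonconstant rational polynomial with `g(a) g(b) ≠ 0`, different
from `± ((a - b)(T - a) + 1) ^ m` and `± ((b - a)(T - b) + 1) ^ m`, and `u`, `v`, `w` nonzero
rational polynomials without common zero. The set `V` of all `(x, z, y - a, y - b, g(y))` in the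
torus of dimension five over the algebraic numbers with `u(y) x + v(y) z = w(y)` is irreducible,
closed, of dimension two, and the heights of the maximal `V`-torsion anomalous points are
bounded. -/
theorem result (a b : ℚ) (hab : a ≠ b) (g u v w : ℚ[X]) (hg : 0 < g.natDegree)
    (hga : g.eval a ≠ 0) (hgb : g.eval b ≠ 0)
    (hexc : ∀ m : ℕ, ∀ s : ℚ, s = 1 ∨ s = -1 →
      g ≠ C s * (C (a - b) * (X - C a) + 1) ^ m ∧ g ≠ C s * (C (b - a) * (X - C b) + 1) ^ m)
    (hu : u ≠ 0) (hv : v ≠ 0) (hw : w ≠ 0)
    (hcop : ∀ y : Om, ¬ (aeval y u = 0 ∧ aeval y v = 0 ∧ aeval y w = 0)) :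
    IsIrreducible (surface a b g u v w) ∧ IsClosed (surface a b g u v w) ∧
      dimT (surface a b g u v w) = 2 ∧
      ∃ c : ℝ, ∀ P : Tor, IsMaxPoint (surface a b g u v w) P → hgt P ≤ c := by
  rw [surface_eq]
  refine Anom.q1 (algebraMap ℚ Om) (Gen.Fab a b g) u v w hu hv hw ?_
    (Gen.indep_ex a b hab g hg hga hgb) ⟨0, ?_⟩ (Gen.star_ex a b hab g hg hga hgb hexc)
  · -- the greatest common divisor is a unit
    let d := EuclideanDomain.gcd (EuclideanDomain.gcd u v) w
    have hd : IsUnit d := by
      by_contra hd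
      have hd0 : d ≠ 0 := fun h => hw (EuclideanDomain.gcd_eq_zero_iff.mp h).2
      have hdeg : d.degree ≠ 0 := fun h => hd (isUnit_iff_degree_eq_zero.mpr h)
      obtain ⟨y, hy⟩ := IsAlgClosed.exists_aeval_eq_zero Om d hdeg
      have h1 : ∀ P : ℚ[X], d ∣ P → aeval y P = 0 := by
        rintro P ⟨e, rfl⟩
        rw [map_mul, hy, zero_mul]
      have h2 : d ∣ EuclideanDomain.gcd u v := EuclideanDomain.gcd_dvd_left _ _
      exact hcop y ⟨h1 u (h2.trans (EuclideanDomain.gcd_dvd_left _ _)),
        h1 v (h2.trans (EuclideanDomain.gcd_dvd_right _ _)),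
        h1 w (EuclideanDomain.gcd_dvd_right _ _)⟩
    obtain ⟨e, he⟩ := hd.exists_left_inv
    have h1 := EuclideanDomain.gcd_eq_gcd_ab (EuclideanDomain.gcd u v) w
    have h2 := EuclideanDomain.gcd_eq_gcd_ab u v
    refine ⟨e * EuclideanDomain.gcdA (EuclideanDomain.gcd u v) w * EuclideanDomain.gcdA u v,
      e * EuclideanDomain.gcdA (EuclideanDomain.gcd u v) w * EuclideanDomain.gcdB u v,
      e * EuclideanDomain.gcdB (EuclideanDomain.gcd u v) w, ?_⟩
    calc _ = e * ((u * EuclideanDomain.gcdA u v + v * EuclideanDomain.gcdB u v) *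
          EuclideanDomain.gcdA (EuclideanDomain.gcd u v) w +
          w * EuclideanDomain.gcdB (EuclideanDomain.gcd u v) w) := by ring
      _ = e * d := by rw [← h2, ← h1]
      _ = 1 := he
  · show (RatFunc.num (algebraMap ℚ[X] (RatFunc ℚ) (X - C a))).natDegree ≠
      (RatFunc.denom (algebraMap ℚ[X] (RatFunc ℚ) (X - C a))).natDegree
    rw [RatFunc.num_algebraMap, RatFunc.denom_algebraMap]
    simp

end Pool.Agent.Results.MP_7da6af_nt.ExplicitSurfaces
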