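import Pool.Agent.Work.MP_7da6af_nt.Rc.Trans
import Pool.Agent.Work.MP_7da6af_nt.Rat2.Curve
import Pool.Agent.Work.MP_7da6af_nt.Rat2.Ex

/-! # Maximal torsion anomalous points on surfaces over rational curves -/

set_option autoImplicit false

namespace Pool.Agent.Results.MP_7da6af_nt.RationalBase

open Pool.Agent.Work.MP_7da6af_nt
open Pool.Agent.Work.MP_7da6af_nt.Cn (Tor IsMaxPoint hgt dimT)

/-- the rational curve in the torus of dimension `ν` with the points with the coordinates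
`cₗ ∏ (y - aᵢ) ^ nᵢₗ`, where `y` is different from all `aᵢ` -/
def curve {s ν : ℕ} (a : Fin s → Om) (n : Fin s → Fin ν → ℤ) (c : Fin ν → Om) :
    Set (Fin ν → Om) :=
  {t | ∃ y : Om, (∀ i, y ≠ a i) ∧ ∀ l, t l = c l * ∏ i, (y - a i) ^ n i l}

/-- the orders of the coordinates at the cusps `aᵢ` and infinity -/
def cusp {s ν : ℕ} (n : Fin s → Fin ν → ℤ) : Option (Fin s) → Fin ν → ℤ
  | some i => n i
  | none => -∑ i, n i

/-- For every subgroup `Λ` of `ℤ ^ ν` of rank at most `ν - 2`, some vector `v` of a cusp has the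
property that for no vector `w` of a cusp a combination `p v + q w` with positive integers `p` and
`q` is in `Λ`. -/
def Asymmetric {s ν : ℕ} (n : Fin s → Fin ν → ℤ) : Prop :=
  ∀ Λ : Submodule ℤ (Fin ν → ℤ), Module.finrank ℤ Λ + 2 ≤ ν →
    ∃ i : Option (Fin s), ∀ (j : Option (Fin s)) (p q : ℕ), 0 < p → 0 < q →
      (p : ℤ) • cusp n i + (q : ℤ) • cusp n j ∉ Λ

/-- the last coordinates of a point -/
def last {ν : ℕ} (q : Tor (ν + 2)) : Fin ν → Om := fun l => q.co l.succ.succ

/-- the points `(x, z, t)` of the torus of dimension `ν + 2` with `t` on the curve and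
`u(t) x ^ α z ^ β + v(t) x ^ γ z ^ δ = w(t)` -/
def surface {s ν : ℕ} (a : Fin s → Om) (n : Fin s → Fin ν → ℤ) (c : Fin ν → Om)
    (u v w : MvPolynomial (Fin ν) Om) (α β γ δ : ℤ) : Set (Tor (ν + 2)) :=
  {q | last q ∈ curve a n c ∧
    MvPolynomial.eval (last q) u * (q.co 0 ^ α * q.co 1 ^ β) +
      MvPolynomial.eval (last q) v * (q.co 0 ^ γ * q.co 1 ^ δ) =
        MvPolynomial.eval (last q) w}

theorem cusp_eq {s ν : ℕ} (n : Fin s → Fin ν → ℤ) (j : Option (Fin s)) :
    Rat2.cv n j = cusp n j := by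
  funext l
  cases j with
  | some i => rfl
  | none =>
    show -∑ i, n i l = (-∑ i, n i) l
    rw [Pi.neg_apply, Finset.sum_apply]

theorem cusp'_eq {s ν : ℕ} (n : Fin s → Fin ν → ℤ) (j : Option (Fin s)) :
    Rat2.cusp' n j = cusp n j := by
  cases j <;> rfl

theorem asymQ_of {s ν : ℕ} {n : Fin s → Fin ν → ℤ} (h : Asymmetric n) : Rc.AsymQ n := by
  intro p q hpq
  have hadd : ∀ (r : Fin ν → ℝ) (z w : Fin ν → ℤ), ∑ l, r l * (((z + w) l : ℤ) : ℝ) =
      ∑ l, r l * (z l : ℝ) + ∑ l, r l * (w l : ℝ) := by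
    intro r z w
    rw [← Finset.sum_add_distrib]
    refine Finset.sum_congr rfl fun l _ => ?_
    rw [Pi.add_apply]
    push_cast
    ring
  have hsmul : ∀ (r : Fin ν → ℝ) (k : ℤ) (z : Fin ν → ℤ), ∑ l, r l * (((k • z) l : ℤ) : ℝ) =
      (k : ℝ) * ∑ l, r l * (z l : ℝ) := by
    intro r k z
    rw [Finset.mul_sum]
    refine Finset.sum_congr rfl fun l _ => ?_
    rw [Pi.smul_apply, smul_eq_mul]
    push_cast
    ring
  let Λ : Submodule ℤ (Fin ν → ℤ) :=
    { carrier := {z | ∑ l, p l * (z l : ℝ) = 0 ∧ ∑ l, q l * (z l : ℝ) = 0}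
      add_mem' := by
        rintro z w ⟨h1, h2⟩ ⟨h3, h4⟩
        exact ⟨by rw [hadd, h1, h3, add_zero], by rw [hadd, h2, h4, add_zero]⟩
      zero_mem' := ⟨by simp, by simp⟩
      smul_mem' := by
        rintro k z ⟨h1, h2⟩
        exact ⟨by rw [hsmul, h1, mul_zero], by rw [hsmul, h2, mul_zero]⟩ }
  obtain ⟨i, hi⟩ := h Λ (Rc.rank_le p q hpq Λ (fun z hz => hz.1) fun z hz => hz.2)
  refine ⟨i, fun j x y hx hy hcon => hi j x y hx hy ?_⟩
  have hlv : ∀ (r : Fin ν → ℝ) (j : Option (Fin s)),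
      ∑ l, r l * (cusp n j l : ℝ) = Rat2.lv n r j := by
    intro r j
    unfold Rat2.lv
    rw [cusp_eq]
  refine ⟨?_, ?_⟩
  · rw [hadd, hsmul, hsmul, hlv, hlv]
    push_cast
    exact hcon.1
  · rw [hadd, hsmul, hsmul, hlv, hlv]
    push_cast
    exact hcon.2

/-- the real condition implies the condition for subgroups -/
theorem asymmetric_of_real {s ν : ℕ} {n : Fin s → Fin ν → ℤ} (h : Rat2.AsymW n) :
    Asymmetric n := by
  intro Λ hΛ
  set ι : (Fin ν → ℤ) →ₗ[ℤ] (Fin ν → ℝ) :=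
    { toFun := fun z l => (z l : ℝ)
      map_add' := fun z w => by
        funext l
        simp
      map_smul' := fun k z => by
        funext l
        simp } with hι
  set b := Module.finBasis ℤ Λ with hb
  set U : Submodule ℝ (Fin ν → ℝ) := Submodule.span ℝ (Set.range fun k => ι (b k)) with hU
  have hUr : Module.finrank ℝ U + 2 ≤ ν := by
    have h1 := finrank_range_le_card (R := ℝ) (fun k => ι (b k : Fin ν → ℤ))
    rw [Fintype.card_fin] at h1
    have h2 : Module.finrank ℝ U ≤ Module.finrank ℤ Λ := h1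
    omega
  have hmem : ∀ z ∈ Λ, ι z ∈ U := by
    intro z hz
    have h1 := b.sum_repr ⟨z, hz⟩
    have h2 := congrArg (fun w : Λ => ι (w : Fin ν → ℤ)) h1
    simp only [Submodule.coe_sum, Submodule.coe_smul, map_sum, map_smul] at h2
    rw [← h2]
    refine Submodule.sum_mem _ fun k _ => ?_
    have h3 : ∀ (c : ℤ) (x : Fin ν → ℝ), c • x = (c : ℝ) • x := fun c x => by
      funext l
      simp
    rw [h3]
    exact Submodule.smul_mem _ _ (Submodule.subset_span ⟨k, rfl⟩)
  -- a subspace of codimension two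
  have hex : ∀ (k : ℕ) (U : Submodule ℝ (Fin ν → ℝ)), Module.finrank ℝ U + 2 + k = ν →
      ∃ W : Submodule ℝ (Fin ν → ℝ), U ≤ W ∧ Module.finrank ℝ W + 2 = ν := by
    intro k
    induction k with
    | zero => exact fun U hU => ⟨U, le_rfl, by omega⟩
    | succ k ih =>
      intro U hU
      have hne : U ≠ ⊤ := by
        rintro rfl
        rw [finrank_top, Module.finrank_fin_fun] at hU
        omega
      obtain ⟨v, -, hv⟩ := SetLike.exists_of_lt (lt_top_iff_ne_top.mpr hne)
      have h1 : U < U ⊔ Submodule.span ℝ {v} := by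
        refine lt_of_le_of_ne le_sup_left fun h0 => hv ?_
        rw [h0]
        exact Submodule.mem_sup_right (Submodule.mem_span_singleton_self v)
      have h2 := Submodule.finrank_lt_finrank_of_lt h1
      have h3 := Submodule.finrank_sup_add_finrank_inf_eq U (Submodule.span ℝ {v})
      have h4 : Module.finrank ℝ (Submodule.span ℝ {v}) ≤ 1 := by
        have := finrank_span_le_card (R := ℝ) ({v} : Set (Fin ν → ℝ))
        simpa using this
      obtain ⟨W, hW1, hW2⟩ := ih (U ⊔ Submodule.span ℝ {v}) (by omega)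
      exact ⟨W, le_sup_left.trans hW1, hW2⟩
  obtain ⟨k, hk⟩ := Nat.exists_eq_add_of_le hUr
  obtain ⟨W, hUW, hW⟩ := hex k U hk.symm
  obtain ⟨i, -, hi⟩ := h W hW
  refine ⟨i, fun j p q hp hq hcon => ?_⟩
  have h1 := hUW (hmem _ hcon)
  have hp' : (0 : ℝ) < p := by exact_mod_cast hp
  have hq' : (0 : ℝ) < q := by exact_mod_cast hq
  refine hi j ((p : ℝ) / q) (div_pos hp' hq') ?_
  have h2 : Rat2.rcusp n j + ((p : ℝ) / q) • Rat2.rcusp n i =
      (q : ℝ)⁻¹ • ι ((p : ℤ) • cusp n i + (q : ℤ) • cusp n j) := by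
    funext l
    simp only [Rat2.rcusp, cusp'_eq, hι, LinearMap.coe_mk, AddHom.coe_mk, Pi.add_apply,
      Pi.smul_apply, smul_eq_mul]
    push_cast
    field_simp
    ring
  rw [h2]
  exact Submodule.smul_mem _ _ h1

/-- in every dimension there are curves with nonzero asymmetric vectors at the cusps -/
theorem exists_asymmetric (ν : ℕ) (hν : 0 < ν) : ∃ (s : ℕ) (n : Fin s → Fin ν → ℤ),
    (∀ j, cusp n j ≠ 0) ∧ Asymmetric n := by
  obtain ⟨s, n, h1, h2⟩ := Rat2.exists_asymW ν hν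
  exact ⟨s, n, fun j => by
    rw [← cusp'_eq]
    exact h1 j, asymmetric_of_real h2⟩

/-- In dimension three asymmetry holds if the number `s + 1` of cusps is odd and the vectors at any
three different cusps are independent. -/
theorem asymmetric_of_indep {s : ℕ} (hs : 0 < s) (he : Even s) (n : Fin s → Fin 3 → ℤ)
    (h : ∀ i j k : Option (Fin s), i ≠ j → i ≠ k → j ≠ k → ∀ x y z : ℝ,
      (∀ l, x * (cusp n i l : ℝ) + y * (cusp n j l : ℝ) + z * (cusp n k l : ℝ) = 0) →
        x = 0 ∧ y = 0 ∧ z = 0) : Asymmetric n := by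
  refine asymmetric_of_real (Rat2.asymW_of_indep hs he n fun i j k hij hik hjk x y z h0 =>
    h i j k hij hik hjk x y z fun l => ?_)
  have := congrFun h0 l
  simpa only [Rat2.rcusp, cusp'_eq, Pi.add_apply, Pi.smul_apply, smul_eq_mul,
    Pi.zero_apply] using this

theorem surface_eq {s ν : ℕ} (a : Fin s → Om) (ha : Function.Injective a)
    (n : Fin s → Fin ν → ℤ) (hn : ∀ j, cusp n j ≠ 0) (c : Fin ν → Om) (hc : ∀ l, c l ≠ 0)
    (u v w : MvPolynomial (Fin ν) Om) (α β γ δ : ℤ) :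
    surface a n c u v w α β γ δ = Cn.surfT (Rat2.idl a n c) u v w α β γ δ := by
  have hiff : ∀ t : Fin ν → Om, t ∈ curve a n c ↔
      (∀ l, t l ≠ 0) ∧ ∀ f ∈ Rat2.idl a n c, MvPolynomial.eval t f = 0 := fun t =>
    (Rat2.mem_curve_iff a n c ha hc (fun i => hn (some i)) (by rw [cusp_eq]; exact hn none)
      t).symm
  ext q
  constructor
  · rintro ⟨h1, h2⟩
    exact ⟨((hiff _).mp h1).2, h2⟩
  · rintro ⟨h1, h2⟩
    exact ⟨(hiff _).mpr ⟨fun l => Cn.co_ne q _, h1⟩, h2⟩

/-- Let `C` be the rational curve in the torus of dimension `ν` over the algebraic numbers with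
the points with the coordinates `cₗ ∏ (y - aᵢ) ^ nᵢₗ`, with different `aᵢ`, nonzero `cₗ`, and
nonzero and asymmetric vectors at the cusps `aᵢ` and infinity. Let `u`, `v`, `w` be polynomials
which do not vanish identically on `C` and have no common zero on `C`, and `α δ - β γ ≠ 0`. The
set `V` of the points `(x, z, t)` of the torus of dimension `ν + 2` with `t` in `C` and
`u(t) x ^ α z ^ β + v(t) x ^ γ z ^ δ = w(t)` is irreducible, closed, of dimension two, and the
heights of the maximal `V`-torsion anomalous points are bounded. -/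
theorem result {s ν : ℕ} (a : Fin s → Om) (ha : Function.Injective a) (n : Fin s → Fin ν → ℤ)
    (hn : ∀ j, cusp n j ≠ 0) (hasym : Asymmetric n) (c : Fin ν → Om) (hc : ∀ l, c l ≠ 0)
    (u v w : MvPolynomial (Fin ν) Om) (hu : ∃ t ∈ curve a n c, MvPolynomial.eval t u ≠ 0)
    (hv : ∃ t ∈ curve a n c, MvPolynomial.eval t v ≠ 0)
    (hw : ∃ t ∈ curve a n c, MvPolynomial.eval t w ≠ 0)
    (hcop : ∀ t ∈ curve a n c, ¬ (MvPolynomial.eval t u = 0 ∧ MvPolynomial.eval t v = 0 ∧
      MvPolynomial.eval t w = 0))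
    (α β γ δ : ℤ) (hdet : α * δ - β * γ ≠ 0) :
    IsIrreducible (surface a n c u v w α β γ δ) ∧ IsClosed (surface a n c u v w α β γ δ) ∧
      dimT (surface a n c u v w α β γ δ) = 2 ∧
      ∃ B : ℝ, ∀ P : Tor (ν + 2), IsMaxPoint (surface a n c u v w α β γ δ) P → hgt P ≤ B := by
  have hasym' := asymQ_of hasym
  have hn' : ∀ i, n i ≠ 0 := fun i => hn (some i)
  have hcv : ∀ j, Rat2.cv n j ≠ 0 := fun j => by
    rw [cusp_eq]
    exact hn j
  have hν : NeZero ν := by
    refine ⟨?_⟩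
    rintro rfl
    exact hn none (funext fun l => l.elim0)
  rw [surface_eq a ha n hn c hc]
  have hnot : ∀ f : MvPolynomial (Fin ν) Om,
      (∃ t ∈ curve a n c, MvPolynomial.eval t f ≠ 0) → f ∉ Rat2.idl a n c := by
    rintro f ⟨t, ⟨y, hy, hty⟩, h⟩ hf
    have ht : t = Rat2.F a n c y := funext hty
    exact h (by rw [ht]; exact hf y hy)
  refine Cn.q1T (Rat2.idl a n c) (Rat2.isCurve_idl a n c ha hc fun κ hκ h0 => hκ
    (Rc.inj_of_asymQ n (hcv none) hasym' κ fun i => congrFun h0 i)) u v w (hnot u hu)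
    (hnot v hv) (hnot w hw) α β γ δ hdet (fun t h1 h2 h3 h4 h5 => hcop t
      ((Rat2.mem_curve_iff a n c ha hc hn' (hcv none) t).mp ⟨h1, h2⟩) ⟨h3, h4, h5⟩) ?_
  intro σ
  refine Rat2.starN_idl a n c ha hc hn' (hcv none) σ fun p q hpq S => ?_
  exact Rc.star_param' (fun i => σ (a i)) (σ.injective.comp ha) n hcv hasym' (fun l => σ (c l))
    (fun l => (map_ne_zero σ).mpr (hc l)) p q hpq S

end Pool.Agent.Results.MP_7da6af_nt.RationalBase
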