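import Pool.Agent.Work.MP_7da6af_nt.Cn.TriIrr

/-! # Maximal torsion anomalous points on surfaces with trinomial fibres, in all dimensions -/

set_option autoImplicit false

namespace Pool.Agent.Results.MP_7da6af_nt.TrinomialSurfaces

open Pool.Agent.Work.MP_7da6af_nt
open Pool.Agent.Work.MP_7da6af_nt.Cn (Tor dimT IsMaxPoint hgt)

variable {n : ℕ}

/-- the zeros of the ideal `I` in the torus of dimension `n` -/
def curve (I : Ideal (MvPolynomial (Fin n) Om)) : Set (Fin n → Om) :=
  {t | (∀ l, t l ≠ 0) ∧ ∀ f ∈ I, MvPolynomial.eval t f = 0}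

/-- the last `n` coordinates of a point of the torus of dimension `n + 2` -/
def last (q : Tor (n + 2)) : Fin n → Om := fun l => q.co l.succ.succ

/-- the points `(x, z, t)` of the torus of dimension `n + 2` with `t` on the curve and
`u(t) x ^ a z ^ b + v(t) x ^ c z ^ d = w(t)` -/
def surface (I : Ideal (MvPolynomial (Fin n) Om)) (u v w : MvPolynomial (Fin n) Om)
    (a b c d : ℤ) : Set (Tor (n + 2)) :=
  {q | last q ∈ curve I ∧
    MvPolynomial.eval (last q) u * (q.co 0 ^ a * q.co 1 ^ b) +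
      MvPolynomial.eval (last q) v * (q.co 0 ^ c * q.co 1 ^ d) =
        MvPolynomial.eval (last q) w}

theorem surface_eq (I : Ideal (MvPolynomial (Fin n) Om)) (u v w : MvPolynomial (Fin n) Om)
    (a b c d : ℤ) : surface I u v w a b c d = Cn.surfT I u v w a b c d := by
  ext q
  constructor
  · rintro ⟨⟨-, h1⟩, h2⟩
    exact ⟨h1, h2⟩
  · rintro ⟨h1, h2⟩
    exact ⟨⟨fun l => Cn.co_ne q _, h1⟩, h2⟩

/-- value of the monomials -/
theorem eval_mp (t : Fin n → Om) (ht : ∀ l, t l ≠ 0) (m : Fin n → ℤ) :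
    MvPolynomial.eval t (Cn.mp Om m) =
      (∏ l, t l ^ m l) * MvPolynomial.eval t (Cn.mp Om (-m)) := by
  unfold Cn.mp
  rw [map_prod, map_prod, ← Finset.prod_mul_distrib]
  refine Finset.prod_congr rfl fun l _ => ?_
  rw [map_pow, map_pow, MvPolynomial.eval_X, ← zpow_natCast, ← zpow_natCast,
    ← zpow_add₀ (ht l), Pi.neg_apply]
  congr 1
  omega

/-- a curve has positive ambient dimension -/
theorem dim_ne_zero (I : Ideal (MvPolynomial (Fin n) Om))
    (hdim : Algebra.trdeg Om (MvPolynomial (Fin n) Om ⧸ I) = 1) : n ≠ 0 := by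
  rintro rfl
  have h1 : Function.Surjective (algebraMap Om (MvPolynomial (Fin 0) Om ⧸ I)) := by
    have h2 : Function.Surjective (MvPolynomial.C : Om → MvPolynomial (Fin 0) Om) :=
      MvPolynomial.C_surjective (Fin 0)
    exact Ideal.Quotient.mk_surjective.comp h2
  have h3 : Algebra.IsAlgebraic Om (MvPolynomial (Fin 0) Om ⧸ I) := by
    constructor
    intro y
    obtain ⟨c, rfl⟩ := h1 y
    exact isAlgebraic_algebraMap c
  have h4 : Algebra.trdeg Om (MvPolynomial (Fin 0) Om ⧸ I) = 0 :=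
    trdeg_eq_zero
  rw [h4] at hdim
  exact zero_ne_one hdim

theorem isCurve_of [NeZero n] (I : Ideal (MvPolynomial (Fin n) Om)) (hI : I.IsPrime)
    (hdim : Algebra.trdeg Om (MvPolynomial (Fin n) Om ⧸ I) = 1)
    (htrans : ∀ m : Fin n → ℤ, m ≠ 0 → ∀ r : Om, ∃ t ∈ curve I, ∏ l, t l ^ m l ≠ r) :
    Cn.IsCurve I := by
  have hX : ∀ l, (MvPolynomial.X l : MvPolynomial (Fin n) Om) ∉ I := by
    intro l hl
    obtain ⟨t, ht, -⟩ := htrans (fun _ => 1) (fun h => by simpa using congrFun h 0) 0
    have := ht.2 _ hl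
    rw [MvPolynomial.eval_X] at this
    exact ht.1 l this
  refine ⟨hI, hX, ?_, ?_⟩
  · intro f g
    by_contra hcon
    push Not at hcon
    have h1 : AlgebraicIndependent Om
        (fun i : Fin 2 => Ideal.Quotient.mkₐ Om I (![f, g] i)) := by
      rw [algebraicIndependent_iff]
      intro R hR
      by_contra hR0
      apply hcon R hR0
      rw [← MvPolynomial.comp_aeval_apply] at hR
      exact Ideal.Quotient.eq_zero_iff_mem.mp hR
    have h2 := h1.cardinalMk_le_trdeg
    rw [hdim, Cardinal.mk_fin] at h2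
    have h3 : (2 : ℕ) ≤ 1 := by exact_mod_cast h2
    omega
  · intro m hm R hR hmem
    classical
    have key : (R.roots.map fun r => Cn.mp Om m - MvPolynomial.C r * Cn.mp Om (-m)).prod ∈ I := by
      by_contra hG
      have hG2 : (R.roots.map fun r => Cn.mp Om m - MvPolynomial.C r * Cn.mp Om (-m)).prod *
          Cn.pX n ∉ I := by
        intro h
        rcases hI.mem_or_mem h with h | h
        · exact hG h
        · unfold Cn.pX at h
          rw [Ideal.IsPrime.prod_mem_iff] at h
          obtain ⟨l, -, hl⟩ := h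
          exact hX l hl
      obtain ⟨t, ht, hne⟩ := Cn.exists_pt hI hG2
      rw [map_mul, mul_ne_zero_iff] at hne
      obtain ⟨h1, h2⟩ := hne
      have ht0 : ∀ l, t l ≠ 0 := Cn.eval_pX h2
      have hB : MvPolynomial.eval t (Cn.mp Om (-m)) ≠ 0 := by
        unfold Cn.mp
        rw [map_prod]
        refine Finset.prod_ne_zero_iff.mpr fun l _ => ?_
        rw [map_pow, MvPolynomial.eval_X]
        exact pow_ne_zero _ (ht0 l)
      have h5 := ht _ hmem
      have h6 : R.eval (∏ l, t l ^ m l) * MvPolynomial.eval t (Cn.mp Om (-m)) ^ R.natDegree =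
          0 := by
        rw [← h5, Polynomial.eval_eq_sum_range, Finset.sum_mul, map_sum]
        refine Finset.sum_congr rfl fun i hi => ?_
        rw [Finset.mem_range] at hi
        rw [map_mul, map_mul, map_pow, map_pow, MvPolynomial.eval_C, eval_mp t ht0 m, mul_pow]
        have e1 : R.natDegree = i + (R.natDegree - i) := by omega
        conv_lhs => rw [e1, pow_add]
        ring
      have h7 : R.eval (∏ l, t l ^ m l) = 0 :=
        (mul_eq_zero.mp h6).resolve_right (pow_ne_zero _ hB)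
      apply h1
      rw [map_multiset_prod, Multiset.map_map, Multiset.prod_eq_zero_iff, Multiset.mem_map]
      refine ⟨∏ l, t l ^ m l, (Polynomial.mem_roots hR).mpr h7, ?_⟩
      show MvPolynomial.eval t (Cn.mp Om m - MvPolynomial.C (∏ l, t l ^ m l) *
        Cn.mp Om (-m)) = 0
      rw [map_sub, map_mul, MvPolynomial.eval_C, eval_mp t ht0 m, sub_self]
    obtain ⟨r, -, hr⟩ : ∃ r ∈ R.roots, Cn.mp Om m - MvPolynomial.C r * Cn.mp Om (-m) ∈ I := by
      have h1 := (Ideal.IsPrime.multiset_prod_mem_iff_exists_mem hI _).mp key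
      obtain ⟨p, hp, hpI⟩ := h1
      rw [Multiset.mem_map] at hp
      obtain ⟨r, hr, rfl⟩ := hp
      exact ⟨r, hr, hpI⟩
    obtain ⟨t, ht, hne⟩ := htrans m hm r
    apply hne
    have h1 := ht.2 _ hr
    rw [map_sub, map_mul, MvPolynomial.eval_C, eval_mp t ht.1 m, ← sub_mul] at h1
    have hB : MvPolynomial.eval t (Cn.mp Om (-m)) ≠ 0 := by
      unfold Cn.mp
      rw [map_prod]
      refine Finset.prod_ne_zero_iff.mpr fun l _ => ?_
      rw [map_pow, MvPolynomial.eval_X]
      exact pow_ne_zero _ (ht.1 l)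
    exact sub_eq_zero.mp ((mul_eq_zero.mp h1).resolve_right hB)

/-- the subspace defined by two independent linear forms has codimension two -/
theorem finrank_two (p q : Fin n → ℝ) (h : LinearIndependent ℝ ![p, q]) :
    Module.finrank ℝ (LinearMap.ker (Matrix.mulVecLin (Matrix.of ![p, q]))) + 2 = n := by
  have h1 := LinearMap.finrank_range_add_finrank_ker (Matrix.mulVecLin (Matrix.of ![p, q]))
  have h2 : (Matrix.of ![p, q]).rank = 2 := by
    have := LinearIndependent.rank_matrix (M := Matrix.of ![p, q]) h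
    rwa [Fintype.card_fin] at this
  have h3 : Module.finrank ℝ (LinearMap.range (Matrix.mulVecLin (Matrix.of ![p, q]))) = 2 := h2
  rw [h3, Module.finrank_fin_fun] at h1
  omega

/-- Let `C` be an irreducible curve in the torus of dimension `n` over the algebraic numbers,
which is in no translate of a proper subtorus, and suppose that for every embedding in the complex
numbers, every linear subspace of codimension two of `ℝⁿ` meets bounded parts of the amoeba of `C`
in the images of finitely many points of `C`. Let `u`, `v`, `w` be polynomials which do not vanish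
identically on `C` and have no common zero on `C`, and `a d - b c ≠ 0`. The set `V` of the points
`(x, z, t)` of the torus of dimension `n + 2` with `t` in `C` and
`u(t) x ^ a z ^ b + v(t) x ^ c z ^ d = w(t)` is irreducible, closed, of dimension two, and the
heights of the maximal `V`-torsion anomalous points are bounded. -/
theorem result (n : ℕ) (I : Ideal (MvPolynomial (Fin n) Om)) (hI : I.IsPrime)
    (hdim : Algebra.trdeg Om (MvPolynomial (Fin n) Om ⧸ I) = 1)
    (htrans : ∀ m : Fin n → ℤ, m ≠ 0 → ∀ r : Om, ∃ t ∈ curve I, ∏ l, t l ^ m l ≠ r)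
    (hstar : ∀ (σ : Om →+* ℂ) (W : Submodule ℝ (Fin n → ℝ)), Module.finrank ℝ W + 2 = n →
      ∀ S : ℝ, {t : Fin n → ℂ | (∀ l, t l ≠ 0) ∧ (∀ f ∈ I, MvPolynomial.eval₂ σ t f = 0) ∧
        (∀ l, |Real.log ‖t l‖| ≤ S) ∧ (fun l => Real.log ‖t l‖) ∈ W}.Finite)
    (u v w : MvPolynomial (Fin n) Om) (hu : ∃ t ∈ curve I, MvPolynomial.eval t u ≠ 0)
    (hv : ∃ t ∈ curve I, MvPolynomial.eval t v ≠ 0)
    (hw : ∃ t ∈ curve I, MvPolynomial.eval t w ≠ 0)
    (hcop : ∀ t ∈ curve I, ¬ (MvPolynomial.eval t u = 0 ∧ MvPolynomial.eval t v = 0 ∧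
      MvPolynomial.eval t w = 0))
    (a b c d : ℤ) (hdet : a * d - b * c ≠ 0) :
    IsIrreducible (surface I u v w a b c d) ∧ IsClosed (surface I u v w a b c d) ∧
      dimT (surface I u v w a b c d) = 2 ∧
      ∃ B : ℝ, ∀ P : Tor (n + 2), IsMaxPoint (surface I u v w a b c d) P → hgt P ≤ B := by
  have hn : NeZero n := ⟨dim_ne_zero I hdim⟩
  rw [surface_eq]
  have hnot : ∀ f : MvPolynomial (Fin n) Om,
      (∃ t ∈ curve I, MvPolynomial.eval t f ≠ 0) → f ∉ I := by
    rintro f ⟨t, ht, h⟩ hf
    exact h (ht.2 f hf)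
  refine Cn.q1T I (isCurve_of I hI hdim htrans) u v w (hnot u hu) (hnot v hv) (hnot w hw)
    a b c d hdet (fun t h1 h2 h3 h4 h5 => hcop t ⟨h1, h2⟩ ⟨h3, h4, h5⟩) ?_
  intro σ p q hpq S
  refine (hstar σ _ (finrank_two p q hpq) S).subset ?_
  rintro t ⟨⟨h1, h2⟩, h3, h4, h5⟩
  refine ⟨h1, h2, h3, ?_⟩
  rw [LinearMap.mem_ker, Matrix.mulVecLin_apply]
  funext i
  fin_cases i
  · exact h4
  · exact h5

end Pool.Agent.Results.MP_7da6af_nt.TrinomialSurfaces
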